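import Mathlib.Combinatorics.SimpleGraph.Basic
import Mathlib.Order.Partition.Finpartition
import Mathlib.Order.Minimal
import Mathlib.Algebra.Order.BigOperators.Group.Finset
import Mathlib.Tactic

/-!
Every finite simple graph on at least three vertices has an LDC-partition, with at least twice as
many parts as any partition of the vertex set into locating-dominating sets.
-/

namespace Pool.Agent.Results.MP_c852bb_co.LDCPartition

open Finset

/-- `D` is a locating-dominating set of `G`: every vertex outside `D` has a neighbour in `D`, and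
distinct vertices outside `D` have distinct neighbourhoods in `D`. -/
def IsLD {V : Type} (G : SimpleGraph V) (D : Finset V) : Prop :=
  (∀ v : V, v ∉ D → ∃ w ∈ D, G.Adj v w) ∧
    ∀ u v : V, u ∉ D → v ∉ D → u ≠ v →
      G.neighborSet u ∩ (D : Set V) ≠ G.neighborSet v ∩ (D : Set V)

/-- `X` and `Y` form an LD-coalition: they are disjoint, neither is an LD-set, and their union is
an LD-set. -/
def IsLDCoalition {V : Type} [DecidableEq V] (G : SimpleGraph V) (X Y : Finset V) : Prop :=
  Disjoint X Y ∧ ¬ IsLD G X ∧ ¬ IsLD G Y ∧ IsLD G (X ∪ Y)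

/-- A partition `P` of the vertex set (into nonempty parts) is an LDC-partition: no part is an
LD-set, and each part forms an LD-coalition with some other part. -/
def IsLDCPartition {V : Type} [Fintype V] [DecidableEq V] (G : SimpleGraph V)
    (P : Finpartition (Finset.univ : Finset V)) : Prop :=
  (∀ X ∈ P.parts, ¬ IsLD G X) ∧ ∀ X ∈ P.parts, ∃ Y ∈ P.parts, Y ≠ X ∧ IsLDCoalition G X Y

section aux

variable {V : Type} [DecidableEq V]

lemma two_le_card_of_isLD [Fintype V] {G : SimpleGraph V} (hn : 3 ≤ Fintype.card V)
    {D : Finset V} (h : IsLD G D) : 2 ≤ D.card := by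
  by_contra hlt
  have h1 : D.card ≤ 1 := by omega
  have h2 : 1 < (Dᶜ).card := by
    rw [Finset.card_compl]; omega
  obtain ⟨u, hu, v, hv, huv⟩ := Finset.one_lt_card.mp h2
  rw [Finset.mem_compl] at hu hv
  obtain ⟨a, ha, hua⟩ := h.1 u hu
  obtain ⟨b, hb, hvb⟩ := h.1 v hv
  have hab : a = b := Finset.card_le_one.mp h1 a ha b hb
  subst hab
  apply h.2 u v hu hv huv
  ext x
  simp only [Set.mem_inter_iff, SimpleGraph.mem_neighborSet, Finset.mem_coe]
  constructor
  · rintro ⟨_, h4⟩
    have : x = a := Finset.card_le_one.mp h1 x h4 a ha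
    subst this
    exact ⟨hvb, h4⟩
  · rintro ⟨_, h4⟩
    have : x = a := Finset.card_le_one.mp h1 x h4 a ha
    subst this
    exact ⟨hua, h4⟩

/-- A partition of `W` into non-members of `F`, each having a partner. -/
def Good (F : Finset V → Prop) {W : Finset V} (P : Finpartition W) : Prop :=
  (∀ X ∈ P.parts, ¬ F X) ∧ ∀ X ∈ P.parts, ∃ Y ∈ P.parts, F (X ∪ Y)

lemma exists_good (F : Finset V → Prop)
    (htwo : ∀ A, F A → 2 ≤ A.card) (W : Finset V) (hW : F W) :
    ∃ P : Finpartition W, Good F P := by
  induction W using Finset.strongInduction with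
  | H W ih =>
    obtain ⟨D, hDW, hD⟩ := exists_minimal_le_of_wellFoundedLT F W hW
    have hD2 := htwo D hD.prop
    obtain ⟨a, ha⟩ : D.Nonempty := Finset.card_pos.mp (by omega)
    have hnot : ∀ A, A ⊂ D → ¬ F A := fun A hA hFA => hD.not_prop_of_lt hA hFA
    have hD1 : ¬ F {a} := fun h => by have := htwo _ h; simp at this
    have hD2' : ¬ F (D.erase a) := hnot _ (Finset.erase_ssubset ha)
    have hne : D.erase a ≠ ∅ := by
      intro h
      have := Finset.card_erase_of_mem ha
      rw [h] at this
      simp at this
      omega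
    have hu : ({a} : Finset V) ∪ D.erase a = D := by
      ext x
      simp only [Finset.mem_union, Finset.mem_singleton, Finset.mem_erase]
      constructor
      · rintro (h | h)
        · exact h ▸ ha
        · exact h.2
      · intro h
        by_cases hx : x = a
        · exact Or.inl hx
        · exact Or.inr ⟨hx, h⟩
    have hDW' : D ⊆ W := hDW
    by_cases hR : F (W \ D)
    · have hss : W \ D ⊂ W := Finset.sdiff_ssubset hDW' ⟨a, ha⟩
      obtain ⟨P, hP1, hP2⟩ := ih _ hss hR
      have e1 : Disjoint (W \ D) ({a} : Finset V) := by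
        rw [Finset.disjoint_singleton_right]; simp [ha]
      have e2 : Disjoint (W \ D ⊔ {a}) (D.erase a) := by
        rw [Finset.disjoint_left]
        intro x hx hx'
        simp only [Finset.sup_eq_union, Finset.mem_union, Finset.mem_sdiff, Finset.mem_singleton,
          Finset.mem_erase] at hx hx'
        tauto
      have e3 : (W \ D ⊔ {a}) ⊔ D.erase a = W := by
        rw [sup_assoc, Finset.sup_eq_union (s := {a}), hu, Finset.sup_eq_union,
          Finset.sdiff_union_of_subset hDW']
      refine ⟨(P.extend (by simp) e1 rfl).extend hne e2 e3, ?_, ?_⟩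
      · intro X hX
        simp only [Finpartition.extend_parts, Finset.mem_insert] at hX
        rcases hX with rfl | rfl | hX
        · exact hD2'
        · exact hD1
        · exact hP1 X hX
      · intro X hX
        simp only [Finpartition.extend_parts, Finset.mem_insert] at hX ⊢
        rcases hX with rfl | rfl | hX
        · exact ⟨{a}, Or.inr (Or.inl rfl), by rw [Finset.union_comm, hu]; exact hD.prop⟩
        · exact ⟨D.erase a, Or.inl rfl, by rw [hu]; exact hD.prop⟩
        · obtain ⟨Y, hY, hXY⟩ := hP2 X hX
          exact ⟨Y, Or.inr (Or.inr hY), hXY⟩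
    · have e2 : Disjoint (W \ D ⊔ {a}) (D.erase a) := by
        rw [Finset.disjoint_left]
        intro x hx hx'
        simp only [Finset.sup_eq_union, Finset.mem_union, Finset.mem_sdiff, Finset.mem_singleton,
          Finset.mem_erase] at hx hx'
        tauto
      have e3 : (W \ D ⊔ {a}) ⊔ D.erase a = W := by
        rw [sup_assoc, Finset.sup_eq_union (s := {a}), hu, Finset.sup_eq_union,
          Finset.sdiff_union_of_subset hDW']
      by_cases hRa : F (W \ D ⊔ {a})
      · have e1 : Disjoint (W \ D) ({a} : Finset V) := by
          rw [Finset.disjoint_singleton_right]; simp [ha]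
        have hRne : W \ D ≠ ⊥ := by
          intro h
          rw [h, bot_sup_eq] at hRa
          exact hD1 hRa
        refine ⟨((Finpartition.indiscrete hRne).extend (by simp) e1 rfl).extend hne e2 e3, ?_, ?_⟩
        · intro X hX
          simp only [Finpartition.extend_parts, Finpartition.indiscrete_parts, Finset.mem_insert,
            Finset.mem_singleton] at hX
          rcases hX with rfl | rfl | rfl
          · exact hD2'
          · exact hD1
          · exact hR
        · intro X hX
          simp only [Finpartition.extend_parts, Finpartition.indiscrete_parts, Finset.mem_insert,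
            Finset.mem_singleton] at hX ⊢
          rcases hX with rfl | rfl | rfl
          · exact ⟨{a}, Or.inr (Or.inl rfl), by rw [Finset.union_comm, hu]; exact hD.prop⟩
          · exact ⟨D.erase a, Or.inl rfl, by rw [hu]; exact hD.prop⟩
          · exact ⟨{a}, Or.inr (Or.inl rfl), hRa⟩
      · have hne' : W \ D ⊔ {a} ≠ ⊥ := by
          intro h
          have : a ∈ W \ D ⊔ {a} := by simp
          rw [h] at this
          simp at this
        refine ⟨(Finpartition.indiscrete hne').extend hne e2 e3, ?_, ?_⟩
        · intro X hX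
          simp only [Finpartition.extend_parts, Finpartition.indiscrete_parts, Finset.mem_insert,
            Finset.mem_singleton] at hX
          rcases hX with rfl | rfl
          · exact hD2'
          · exact hRa
        · intro X hX
          simp only [Finpartition.extend_parts, Finpartition.indiscrete_parts, Finset.mem_insert,
            Finset.mem_singleton] at hX ⊢
          have hW' : F ((W \ D ⊔ {a}) ∪ D.erase a) := by
            rw [← Finset.sup_eq_union, e3]; exact hW
          rcases hX with rfl | rfl
          · exact ⟨_, Or.inr rfl, by rw [Finset.union_comm]; exact hW'⟩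
          · exact ⟨_, Or.inl rfl, hW'⟩

lemma Good.two_le {F : Finset V → Prop} {W : Finset V} (hW : W ≠ ⊥) {P : Finpartition W}
    (h : Good F P) : 2 ≤ P.parts.card := by
  obtain ⟨X, hX⟩ := P.parts_nonempty hW
  obtain ⟨Y, hY, hXY⟩ := h.2 X hX
  have hne : X ≠ Y := by
    rintro rfl
    rw [Finset.union_self] at hXY
    exact h.1 X hX hXY
  exact Finset.one_lt_card.mpr ⟨X, hX, Y, hY, hne⟩

end aux

/-- Every finite simple graph with at least three vertices has an LDC-partition, and one with at
least twice as many parts as any partition of the vertex set into LD-sets. -/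
theorem result (V : Type) [Fintype V] [DecidableEq V] (G : SimpleGraph V)
    (hn : 3 ≤ Fintype.card V) :
    ∃ P : Finpartition (Finset.univ : Finset V), IsLDCPartition G P ∧
      ∀ Q : Finpartition (Finset.univ : Finset V), (∀ X ∈ Q.parts, IsLD G X) →
        2 * Q.parts.card ≤ P.parts.card := by
  classical
  have huniv : IsLD G (Finset.univ : Finset V) :=
    ⟨fun v hv => absurd (Finset.mem_univ v) hv, fun u _ hu => absurd (Finset.mem_univ u) hu⟩
  have hne : (Finset.univ : Finset V) ≠ ⊥ := by
    intro h
    have : (Finset.univ : Finset V).card = 0 := by rw [h]; rfl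
    rw [Finset.card_univ] at this
    omega
  let S : Finset (Finpartition (Finset.univ : Finset V)) :=
    Finset.univ.filter fun Q => ∀ X ∈ Q.parts, IsLD G X
  have hS : S.Nonempty := ⟨Finpartition.indiscrete hne, by
    simp only [S, Finset.mem_filter, Finset.mem_univ, true_and, Finpartition.indiscrete_parts,
      Finset.mem_singleton]
    rintro X rfl
    exact huniv⟩
  obtain ⟨Q₀, hQ₀, hmax⟩ := Finset.exists_max_image S (fun Q => Q.parts.card) hS
  have hQ₀' : ∀ X ∈ Q₀.parts, IsLD G X := (Finset.mem_filter.mp hQ₀).2
  have hex : ∀ X ∈ Q₀.parts, ∃ P : Finpartition X, Good (IsLD G) P := fun X hX =>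
    exists_good (IsLD G) (fun _ h => two_le_card_of_isLD hn h) X
      (hQ₀' X hX)
  choose R hR using hex
  refine ⟨Q₀.bind R, ⟨?_, ?_⟩, ?_⟩
  · intro X hX
    obtain ⟨A, hA, hXA⟩ := Finpartition.mem_bind.mp hX
    exact (hR A hA).1 X hXA
  · intro X hX
    obtain ⟨A, hA, hXA⟩ := Finpartition.mem_bind.mp hX
    obtain ⟨Y, hY, hXY⟩ := (hR A hA).2 X hXA
    have hne' : Y ≠ X := by
      rintro rfl
      rw [Finset.union_self] at hXY
      exact (hR A hA).1 Y hY hXY
    exact ⟨Y, Finpartition.mem_bind.mpr ⟨A, hA, hY⟩, hne',
      (R A hA).disjoint hXA hY hne'.symm, (hR A hA).1 X hXA, (hR A hA).1 Y hY, hXY⟩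
  · intro Q hQ
    have h1 : Q.parts.card ≤ Q₀.parts.card :=
      hmax Q (Finset.mem_filter.mpr ⟨Finset.mem_univ _, hQ⟩)
    rw [Finpartition.card_bind]
    have h2 : ∑ _A ∈ Q₀.parts.attach, 2 ≤ ∑ A ∈ Q₀.parts.attach, (R _ A.2).parts.card :=
      Finset.sum_le_sum fun A _ => (hR A.1 A.2).two_le (Q₀.ne_bot A.2)
    rw [Finset.sum_const, Finset.card_attach, smul_eq_mul] at h2
    omega

end Pool.Agent.Results.MP_c852bb_co.LDCPartition
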